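import Pool.Agent.L0h5.TU.Stm

/-!
# Project TU, module B: the expansion of the truncated average (helper71)
-/

set_option autoImplicit false

namespace Pool.Agent.L0h71.TU

open Finset Pool.Agent.W262.RK Pool.Agent.L0h5.TF Pool.Agent.L0h5.TU Pool.Agent.L0h94.FT

open Pool.Agent.L0h5.TT (vvk xxk nd_xv)

open Pool.Agent.W762.RK2 (Pr Pr_prime nb nb_pf nb_ne_zero dvd_nb nb_inj nb_dvd nb_dvd_PP nb_eq
  prod_pf Dl Dl_mem lab sum_Tup prod_Dl prod_gw Sym_Dl)

open Pool.Agent.L0h5.AG (gg)

section

variable {k z y : ℕ}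

/-- the sum over the divisors of a fixed number -/
lemma gs_fix (lam : ℕ → Vk k → Vk k → ℝ) (c : ℕ) (s0 : ℕ) (hs0 : s0 ∈ (PP z y).divisors) :
    Gs lam s0 * gw 1 c s0 = ∑ ξ : Pr z y → Option (Vk k),
      if nb (fun p => (ξ p).isSome) = s0 then ∏ p, Tm lam c ξ p else 0 := by
  have h1 : Gs lam s0 * gw 1 c s0 =
      ∑ s ∈ (PP z y).divisors,
        ∑ D ∈ Fintype.piFinset (fun _ : Fin k => s.divisors ×ˢ s.divisors),
        (if s = s0 then (∏ p ∈ s.primeFactors, (lam p (fun i => (dv p (D i).1, dv p (D i).2))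
          (fun i => (sgn p (D i).1, sgn p (D i).2)) * (1 / ((p : ℝ) - c)))) else 0) := by
    rw [Finset.sum_eq_single s0]
    · unfold Gs gw
      rw [sum_mul]
      refine sum_congr rfl fun D _ => ?_
      rw [if_pos rfl, prod_mul_distrib]
    · intro s _ hs
      exact Finset.sum_eq_zero fun D _ => if_neg hs
    · intro h
      exact absurd hs0 h
  rw [h1, sum_all fun s D => (if s = s0 then
    (∏ p ∈ s.primeFactors, (lam p (fun i => (dv p (D i).1, dv p (D i).2))
          (fun i => (sgn p (D i).1, sgn p (D i).2)) * (1 / ((p : ℝ) - c)))) else 0)]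
  refine sum_congr rfl fun ξ _ => ?_
  refine if_congr Iff.rfl ?_ rfl
  rw [prod_pf _ fun p => (lam p (fun i => (dv p (Dd ξ i).1, dv p (Dd ξ i).2))
          (fun i => (sgn p (Dd ξ i).1, sgn p (Dd ξ i).2)) * (1 / ((p : ℝ) - c)))]
  refine prod_congr rfl fun p _ => ?_
  unfold Tm
  cases hx : ξ p with
  | none => simp
  | some v =>
    have e1 : (fun i => (dv (p : ℕ) ((Dd ξ i).1 : ℤ), dv (p : ℕ) ((Dd ξ i).2 : ℤ))) = v := by
      funext i
      refine Prod.ext ?_ ?_
      · have h2 : c1 (ξ p) i = (v i).1 := by rw [hx]; rfl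
        rw [← h2]
        unfold dv
        rw [Bool.eq_iff_iff, decide_eq_true_iff, Int.natCast_dvd_natCast]
        exact dvd_nb _ p
      · have h2 : c2 (ξ p) i = (v i).2 := by rw [hx]; rfl
        rw [← h2]
        unfold dv
        rw [Bool.eq_iff_iff, decide_eq_true_iff, Int.natCast_dvd_natCast]
        exact dvd_nb _ p
    rw [e1]
    simp only [Option.isSome_some, if_true, Option.elim]
    rfl

variable {J : Type} [Fintype J] [DecidableEq J]

/-- the typed local term -/
noncomputable def Lt (lam : J → ℕ → Vk k → Vk k → ℝ) (c : ℕ) (T : Option J)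
    (ξ : Option (Vk k)) (h : Vk k) (p : ℕ) : ℝ :=
  T.elim (ξ.elim 1 fun _ => 0) fun j => ξ.elim 0 fun v => lam j p v h * (1 / ((p : ℝ) - c))

lemma lamT_Dl (lam : J → ℕ → Vk k → Vk k → ℝ) (T : Pr z y → Option J) (p : Pr z y) (j : J)
    (h : T p = some j) (v h' : Vk k) : lamT lam (Dl T) p v h' = lam j p v h' := by
  unfold lamT
  have h1 : ∀ i, (p : ℕ) ∣ Dl T i ↔ i = j := by
    intro i
    unfold Dl
    rw [dvd_nb, decide_eq_true_iff, h, Option.some.injEq]
    exact eq_comm
  rw [Finset.sum_congr rfl fun i _ => if_congr (h1 i) rfl rfl, Finset.sum_ite_eq',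
    if_pos (mem_univ j)]

lemma tm_eq (lam : J → ℕ → Vk k → Vk k → ℝ) (c : ℕ) (T : Pr z y → Option J)
    (ξ : Pr z y → Option (Vk k)) :
    (if nb (fun p => (ξ p).isSome) = nb (fun p => (T p).isSome) then
      ∏ p, Tm (lamT lam (Dl T)) c ξ p else 0) =
      ∏ p : Pr z y, Lt lam c (T p) (ξ p) (hx ξ p) p := by
  by_cases h : ∀ p, (ξ p).isSome = (T p).isSome
  · rw [if_pos (by congr 1; funext p; exact h p)]
    refine prod_congr rfl fun p _ => ?_
    have hp := h p
    unfold Tm Lt
    cases hξ : ξ p with
    | none =>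
      cases hT : T p with
      | none => rfl
      | some j => rw [hξ, hT] at hp; exact absurd hp (by simp)
    | some v =>
      cases hT : T p with
      | none => rw [hξ, hT] at hp; exact absurd hp (by simp)
      | some j =>
        simp only [Option.elim]
        rw [lamT_Dl lam T p j hT]
  · rw [if_neg (fun e => h fun p => congrFun (nb_inj e) p)]
    push Not at h
    obtain ⟨p, hp⟩ := h
    symm
    refine Finset.prod_eq_zero (mem_univ p) ?_
    unfold Lt
    cases hξ : ξ p with
    | none =>
      cases hT : T p with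
      | none => rw [hξ, hT] at hp; exact absurd rfl hp
      | some j => rfl
    | some v =>
      cases hT : T p with
      | none => rfl
      | some j => rw [hξ, hT] at hp; exact absurd rfl hp

lemma gw_prod (c : ℕ) (T : Pr z y → Option J) :
    ∏ j, gw 1 c (Dl T j) = gw 1 c (nb fun p => (T p).isSome) := by
  rw [prod_gw (fun _ => (1 : ℝ)) c T]
  unfold gw
  rw [prod_pf _ fun p : ℕ => (1 : ℝ) / ((p : ℝ) - c)]
  refine prod_congr rfl fun p _ => ?_
  cases T p <;> rfl

/-- the left hand side for one typing -/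
lemma lhs_T (lam : J → ℕ → Vk k → Vk k → ℝ) (c : ℕ) (T : Pr z y → Option J) :
    GT lam (Dl T) * ∏ j, gw 1 c (Dl T j) =
      ∑ ξ : Pr z y → Option (Vk k), ∏ p : Pr z y, Lt lam c (T p) (ξ p) (hx ξ p) p := by
  rw [gw_prod]
  unfold GT
  rw [prod_Dl, gs_fix (z := z) (y := y) _ c _
    (Nat.mem_divisors.2 ⟨nb_dvd_PP _, PP_ne_zero z y⟩)]
  exact sum_congr rfl fun ξ _ => tm_eq lam c T ξ

/-- the local factor -/
noncomputable def Gtw {I : Type} (lb : I → Lb k) (g : I → ℕ → ℝ) (ξ : Pr z y → Option (Vk k))
    (p : Pr z y) (x : Option I) : ℝ :=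
  x.elim 1 fun i => g i p * chi (lb i).1.2 (hx ξ p)

lemma rhs_termw {I : Type} [Fintype I] [DecidableEq I] (lb : I → Lb k) (g : I → ℕ → ℝ)
    (ξ : Pr z y → Option (Vk k)) (l : Pr z y → Option I) (h : ∀ p, fgi lb (l p) = ξ p) :
    (∏ i, gg g i (Dl l i)) * Sym (Lki lb) (fun _ => 1) (Dl l) =
      ∏ p, Gtw lb g ξ p (l p) := by
  rw [prod_gg, Sym_Dl, ← prod_mul_distrib, ← prod_mul_distrib]
  refine prod_congr rfl fun p _ => ?_
  cases hl : l p with
  | none =>
    have h0 : ∀ q, Pool.Agent.W762.RK2.lk (Lki lb) (l q) none = false := by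
      intro q
      cases l q <;> rfl
    simp [h0, Gtw]
  | some i =>
    have hev : oo (lb i).1.2 (ξ p) = false := by
      rw [← h p, hl]
      simp only [oo, fgi, Option.map_some, Option.elim]
      have := (lb i).2
      rw [decide_eq_false_iff_not, Nat.not_odd_iff_even]
      exact this
    have h1 : ∀ q, Pool.Agent.W762.RK2.lk (Lki lb) (l q) (some i) =
        oo (lb i).1.2 (ξ q) := by
      intro q
      rw [← h q]
      cases hq : l q with
      | none => rfl
      | some i' => rfl
    have e1 : ∏ q : Pr z y, (if Pool.Agent.W762.RK2.lk (Lki lb) (l q) (some i) = true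
        then Jr (q : ℕ) p else 1) = chi (lb i).1.2 (hx ξ p) := by
      rw [chi_eq ξ p (lb i).1.2 hev]
      refine prod_congr rfl fun q _ => ?_
      rw [h1]
    rw [e1]
    simp [Gtw, Pool.Agent.L0h5.AG.Jr_one_left']

/-- the local sum -/
lemma loc_sum {B : ℕ} (hB : 0 < B) (q : J → Fin 3) (lam : J → ℕ → Vk k → Vk k → ℝ)
    (w : J → (Fin k → Bool) → (Fin k → Bool) → ℕ → ℝ) (c : ℕ)
    (ξ : Pr z y → Option (Vk k)) (p : Pr z y)
    (hlam : ∀ j v h, lam j p v h = ∑ b : Fin k → Bool, ∑ x : Fin k → Bool,
      if vvk (q j) b = v then w j b x p * chi (xxk (q j) x) h else 0) (T : Option J) :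
    ∑ x ∈ univ.filter (fun x : Option (Ij J k B) => x.map (fun i => i.1) = T ∧
        fgi (lbj q) x = ξ p), Gtw (lbj q) (wj w c) ξ p x = Lt lam c T (ξ p) (hx ξ p) p := by
  rw [sum_filter, Fintype.sum_option]
  unfold Lt
  cases hξ : ξ p with
  | none =>
    cases T with
    | none =>
      rw [if_pos ⟨rfl, rfl⟩, Finset.sum_eq_zero fun i _ => if_neg fun e => by simp at e]
      simp [Gtw]
    | some j =>
      rw [if_neg (fun e => by simp at e), Finset.sum_eq_zero fun i _ => if_neg fun e => by
        have := e.2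
        simp [fgi] at this]
      simp
  | some v =>
    cases T with
    | none =>
      rw [if_neg (fun e => by have := e.2; simp [fgi] at this),
        Finset.sum_eq_zero fun i _ => if_neg fun e => by simp at e]
      simp
    | some j =>
      rw [if_neg (fun e => by simp at e), zero_add]
      simp only [Option.elim]
      have hB' : (B : ℝ) ≠ 0 := by exact_mod_cast hB.ne'
      have h1 : ∀ i : Ij J k B, (if (some i).map (fun i => i.1) = some j ∧
          fgi (lbj q) (some i) = some v then Gtw (lbj q) (wj w c) ξ p (some i) else 0) =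
          if i.1 = j then (if vvk (q j) i.2.1 = v then
            w j i.2.1 i.2.2.1 p / (B * ((p : ℝ) - c)) * chi (xxk (q j) i.2.2.1) (hx ξ p)
            else 0) else 0 := by
        intro i
        by_cases h1 : i.1 = j
        · rw [if_pos h1]
          by_cases h2 : vvk (q j) i.2.1 = v
          · rw [if_pos h2, if_pos ⟨by rw [Option.map_some, h1], by
              simp only [fgi, Option.map_some, Option.some.injEq]
              show vvk (q i.1) i.2.1 = v
              rw [h1]
              exact h2⟩]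
            show wj w c i p * chi (xxk (q i.1) i.2.2.1) (hx ξ p) = _
            unfold wj
            rw [h1]
          · rw [if_neg h2, if_neg]
            rintro ⟨_, e2⟩
            apply h2
            simp only [fgi, Option.map_some, Option.some.injEq] at e2
            have e3 : vvk (q i.1) i.2.1 = v := e2
            rw [h1] at e3
            exact e3
        · rw [if_neg h1, if_neg]
          rintro ⟨e1, _⟩
          apply h1
          simpa using e1
      rw [Finset.sum_congr rfl fun i _ => h1 i, Fintype.sum_prod_type,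
        Finset.sum_eq_single j]
      · simp only [if_true]
        rw [Fintype.sum_prod_type]
        simp only [Fintype.sum_prod_type, sum_const, card_univ, Fintype.card_fin, nsmul_eq_mul]
        rw [hlam, sum_mul]
        refine sum_congr rfl fun b _ => ?_
        rw [sum_mul]
        refine sum_congr rfl fun x _ => ?_
        by_cases h2 : vvk (q j) b = v
        · rw [if_pos h2, if_pos h2]
          have e1 : w j b x p / (B * ((p : ℝ) - c)) =
              w j b x p * (1 / ((p : ℝ) - c)) * (1 / B) := by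
            rw [mul_one_div, mul_one_div, div_div, mul_comm (B : ℝ)]
          rw [e1]
          field_simp
        · rw [if_neg h2, if_neg h2, mul_zero, zero_mul]
      · intro j' _ hj'
        refine Finset.sum_eq_zero fun x _ => ?_
        exact if_neg hj'
      · intro h
        exact absurd (mem_univ _) h

/-- the numbers of the primes -/
lemma om_Dl {B : ℕ} (l : Pr z y → Option (Ij J k B)) :
    (fun a => ∑ i ∈ univ.filter (fun i : Ij J k B => i.1 = a), (Dl l i).primeFactors.card) =
      omJ (Dl fun p => (l p).map (fun i => i.1)) := by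
  funext a
  unfold omJ
  have h1 : ∀ {ι : Type} [DecidableEq ι] (l : Pr z y → Option ι) (i : ι),
      (Dl l i).primeFactors.card = (univ.filter (fun p : Pr z y => l p = some i)).card := by
    intro ι _ l i
    unfold Dl
    rw [nb_pf]
    unfold Pool.Agent.W762.RK2.Ts
    rw [card_map]
    simp only [decide_eq_true_eq]
  rw [h1, Finset.sum_congr rfl fun i _ => h1 l i, ← card_biUnion]
  · congr 1
    ext p
    rw [mem_biUnion]
    simp only [mem_filter, mem_univ, true_and, Option.map_eq_some_iff]
    constructor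
    · rintro ⟨i, h2, h3⟩
      exact ⟨i, h3, h2⟩
    · rintro ⟨i, h2, h3⟩
      exact ⟨i, h3, h2⟩
  · intro i _ j _ hij
    rw [Function.onFun, Finset.disjoint_left]
    intro p hp hp'
    rw [mem_filter] at hp hp'
    exact hij (Option.some.inj (hp.2.symm.trans hp'.2))

end

/-- **B** -/
theorem s2_exp : S2_EXP := by
  classical
  intro J _ _ k B c z y q lam w hB hlam F
  have hlam' : ∀ p : Pr z y, ∀ j v h, lam j p v h = ∑ b : Fin k → Bool, ∑ x : Fin k → Bool,
      if vvk (q j) b = v then w j b x p * chi (xxk (q j) x) h else 0 := by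
    intro p j v h
    have hp := mem_PS.1 p.2
    exact hlam j p hp.2 hp.1.1 v h
  rw [sum_Tup, sum_Tup, Finset.sum_congr rfl fun T _ => by rw [lhs_T (k := k) lam c T]]
  rw [← Finset.sum_fiberwise univ
    (fun (l : Pr z y → Option (Ij J k B)) => fun p => (l p).map (fun i => i.1))]
  refine Finset.sum_congr rfl fun T _ => ?_
  rw [← Finset.sum_fiberwise (univ.filter
    (fun l : Pr z y → Option (Ij J k B) => (fun p => (l p).map (fun i => i.1)) = T))
    (fun (l : Pr z y → Option (Ij J k B)) => fun p => fgi (lbj q) (l p)), Finset.mul_sum]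
  refine Finset.sum_congr rfl fun ξ _ => ?_
  rw [Finset.prod_congr rfl fun p _ => (loc_sum hB q lam w c ξ p (hlam' p) (T p)).symm,
    Finset.prod_univ_sum, Finset.mul_sum]
  have h1 : ((univ.filter fun l : Pr z y → Option (Ij J k B) =>
      (fun p => (l p).map (fun i => i.1)) = T).filter
      fun l => (fun p => fgi (lbj q) (l p)) = ξ) =
      Fintype.piFinset (fun p => univ.filter
        (fun x : Option (Ij J k B) => x.map (fun i => i.1) = T p ∧ fgi (lbj q) x = ξ p)) := by
    ext l
    simp only [Finset.mem_filter, Finset.mem_univ, true_and, Fintype.mem_piFinset, funext_iff]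
    constructor
    · rintro ⟨h1, h2⟩ p
      exact ⟨h1 p, h2 p⟩
    · intro h
      exact ⟨fun p => (h p).1, fun p => (h p).2⟩
  rw [h1]
  refine Finset.sum_congr rfl fun l hl => ?_
  rw [Fintype.mem_piFinset] at hl
  have h2 : ∀ p, (l p).map (fun i => i.1) = T p ∧ fgi (lbj q) (l p) = ξ p :=
    fun p => (Finset.mem_filter.1 (hl p)).2
  have h3 := rhs_termw (lbj q) (wj w c) ξ l fun p => (h2 p).2
  have h4 : (∏ i, gg (wj w c) i (Dl l i)) * Sym (Lj q) (fun _ => 1) (Dl l) =
      ∏ p, Gtw (lbj q) (wj w c) ξ p (l p) := h3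
  rw [h4, om_Dl, show (fun p => (l p).map (fun i => i.1)) = T from funext fun p => (h2 p).1]
  ring

end Pool.Agent.L0h71.TU
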