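import Pool.Agent.L0h5.TU.Stm
import Pool.Agent.L0h5.TH.Core
import Pool.Agent.L0h19.TT.Ant

/-!
# Project TU, module H: the abstract core (helper71, after helper5)
-/

set_option autoImplicit false
set_option linter.unusedSectionVars false

namespace Pool.Agent.L0h71.TU

open Finset Pool.Agent.W262.RK Pool.Agent.L0h5.TF Pool.Agent.L0h5.TU Pool.Agent.L0h94.FT
open Pool.Agent.L0h5.TH
open Pool.Agent.L0h5.TT (LL)
open Pool.Agent.W307.RT (S1 S2 Gd)

section

variable {J : Type} [Fintype J] [DecidableEq J]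

/-! ### factorisations -/

/-- the factorisations -/
def ThJ (J : Type) [Fintype J] [DecidableEq J] (s : ℕ) : Finset (J → ℕ) :=
  (Fintype.piFinset (fun _ : J => s.divisors)).filter (fun τ => ∏ j, τ j = s)

lemma mem_TupG {ι : Type} [Fintype ι] [DecidableEq ι] {z y : ℕ} {d : ι → ℕ} :
    d ∈ Tup ι z y ↔ (∀ i, d i ∈ (PP z y).divisors) ∧ ∀ i j, i ≠ j → (d i).Coprime (d j) := by
  unfold Tup
  rw [mem_filter, Fintype.mem_piFinset]

lemma TupJ_prod {z y : ℕ} {τ : J → ℕ} (h : τ ∈ Tup J z y) :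
    ∏ j, τ j ∈ (PP z y).divisors := by
  rw [mem_TupG] at h
  rw [Nat.mem_divisors]
  exact ⟨Finset.prod_dvd_of_isRelPrime (fun i _ j _ hij =>
    Nat.coprime_iff_isRelPrime.1 (h.2 i j hij)) fun b _ => Nat.dvd_of_mem_divisors (h.1 b),
    PP_ne_zero z y⟩

lemma TupJ_iff {z y : ℕ} {τ : J → ℕ} : τ ∈ Tup J z y ↔ ∏ j, τ j ∈ (PP z y).divisors := by
  refine ⟨TupJ_prod, fun h => ?_⟩
  have hsq := dv_squarefree h
  rw [mem_TupG]
  refine ⟨fun j => ?_, fun i j hij => ?_⟩
  · rw [Nat.mem_divisors]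
    exact ⟨(dvd_prod_of_mem τ (mem_univ j)).trans (Nat.dvd_of_mem_divisors h), PP_ne_zero z y⟩
  · have h1 : τ i * τ j ∣ ∏ l, τ l := by
      rw [← mul_prod_erase univ τ (mem_univ i)]
      exact mul_dvd_mul_left _ (dvd_prod_of_mem τ (mem_erase.2 ⟨hij.symm, mem_univ j⟩))
    exact Nat.coprime_of_squarefree_mul (hsq.squarefree_of_dvd h1)

lemma mem_ThJ {s : ℕ} (hs : s ≠ 0) {τ : J → ℕ} : τ ∈ ThJ J s ↔ ∏ j, τ j = s := by
  unfold ThJ
  rw [mem_filter, Fintype.mem_piFinset]
  refine ⟨fun h => h.2, fun h => ⟨fun j => ?_, h⟩⟩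
  exact Nat.mem_divisors.2 ⟨h ▸ dvd_prod_of_mem τ (mem_univ j), hs⟩

lemma ThJ_Tup {z y s : ℕ} (hs : s ∈ (PP z y).divisors) {τ : J → ℕ} (h : τ ∈ ThJ J s) :
    τ ∈ Tup J z y := by
  rw [TupJ_iff, (mem_ThJ (dv_ne_zero hs)).1 h]
  exact hs

lemma sum_fibJ (z y : ℕ) (f : (J → ℕ) → ℝ) :
    ∑ s ∈ (PP z y).divisors, ∑ τ ∈ ThJ J s, f τ = ∑ τ ∈ Tup J z y, f τ := by
  rw [← sum_fiberwise_of_maps_to (s := Tup J z y) (t := (PP z y).divisors)
    (g := fun τ => ∏ j, τ j) (fun τ h => TupJ_prod h) f]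
  refine sum_congr rfl fun s hs => ?_
  congr 1
  ext τ
  rw [mem_filter, TupJ_iff, mem_ThJ (dv_ne_zero hs)]
  constructor
  · intro h
    exact ⟨by rw [h]; exact hs, h⟩
  · rintro ⟨_, h⟩
    exact h

lemma gw_prodJ {c z y : ℕ} {τ : J → ℕ} (h : τ ∈ Tup J z y) :
    gw 1 c (∏ j, τ j) = ∏ j, gw 1 c (τ j) := by
  have h0 := dv_ne_zero (TupJ_prod h)
  rw [mem_TupG] at h
  have h1 : (∏ j, τ j).primeFactors = univ.biUnion (fun j => (τ j).primeFactors) := by
    ext p
    rw [mem_biUnion, Nat.mem_primeFactors]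
    constructor
    · rintro ⟨hp, hpd, -⟩
      obtain ⟨b, -, hb⟩ := (hp.prime.dvd_finsetProd_iff _).1 hpd
      exact ⟨b, mem_univ b, Nat.mem_primeFactors.2 ⟨hp, hb, dv_ne_zero (h.1 b)⟩⟩
    · rintro ⟨b, -, hb⟩
      rw [Nat.mem_primeFactors] at hb
      exact ⟨hb.1, hb.2.1.trans (dvd_prod_of_mem τ (mem_univ b)), h0⟩
  unfold gw
  rw [h1, prod_biUnion]
  intro i _ j _ hij
  exact (h.2 i j hij).disjoint_primeFactors

/-- the factorisation by the types -/
def tcf (s : ℕ) (t : ℕ → J) : J → ℕ := fun j => ∏ p ∈ s.primeFactors.filter (fun p => t p = j), p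

lemma prod_tcf {s : ℕ} (hs : Squarefree s) (t : ℕ → J) : ∏ j, tcf s t j = s := by
  unfold tcf
  rw [prod_fiberwise]
  exact Nat.prod_primeFactors_of_squarefree hs

lemma dvd_tcf {s : ℕ} (t : ℕ → J) {p : ℕ} (hp : p ∈ s.primeFactors) (j : J) :
    p ∣ tcf s t j ↔ t p = j := by
  unfold tcf
  rw [prime_dvd_prodS (fun q hq => Nat.prime_of_mem_primeFactors (mem_filter.1 hq).1)
    (Nat.prime_of_mem_primeFactors hp), mem_filter]
  exact and_iff_right hp

lemma omJ_tcf {St : Type} (ty : St → J) (st : ℕ → St) (s : ℕ) :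
    omJ (tcf s fun p => ty (st p)) = cnS ty st s := by
  funext j
  unfold omJ tcf cnS
  rw [Nat.primeFactors_prod fun q hq => Nat.prime_of_mem_primeFactors (mem_filter.1 hq).1]

end

section

variable {J St : Type} [Fintype J] [DecidableEq J] {k c z : ℕ}

/-- the truncated local average -/
noncomputable def lmT (z : ℕ) (lam : J → ℕ → Vk k → Vk k → ℝ) (j : J) (p : ℕ) (v h : Vk k) : ℝ :=
  if z < p then lam j p v h else 0

lemma lam_nn {Sp : ℕ → Finset St} {LS : St → ℕ → Bool → Bool → Bool → Bool → Prop} {ty : St → J}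
    {lam : J → ℕ → Vk k → Vk k → ℝ} (hl : Hl c z Sp LS ty lam) {p : ℕ} (hp : p.Prime)
    (hz : z < p) (j : J) (v h : Vk k) : 0 ≤ lam j p v h := by
  rw [hl.lam_eq p hp hz]
  exact sum_nonneg fun σ _ => mul_nonneg (by norm_num) (prod_nonneg fun i _ => iL_nonneg _ _ _)

lemma GT_nn {Sp : ℕ → Finset St} {LS : St → ℕ → Bool → Bool → Bool → Bool → Prop} {ty : St → J}
    {lam : J → ℕ → Vk k → Vk k → ℝ} (hl : Hl c z Sp LS ty lam) (s : J → ℕ) :
    0 ≤ GT (lmT z lam) s := by
  unfold GT
  refine Gs_nn fun p hp v h => ?_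
  unfold lamT
  refine sum_nonneg fun j _ => ?_
  unfold lmT
  split_ifs with h1 h2
  · exact lam_nn hl (Nat.prime_of_mem_primeFactors hp) h2 j v h
  · exact le_rfl
  · exact le_rfl

lemma GT_lmT {y : ℕ} (lam : J → ℕ → Vk k → Vk k → ℝ) {s : J → ℕ} (hs : s ∈ Tup J z y) :
    GT (lmT z lam) s = GT lam s := by
  unfold GT
  rw [Gs_def, Gs_def]
  refine sum_congr rfl fun D _ => prod_congr rfl fun p hp => ?_
  have h1 := (dv_prime (TupJ_prod hs) (Nat.prime_of_mem_primeFactors hp)
    (Nat.dvd_of_mem_primeFactors hp)).1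
  unfold lamT lmT
  simp only [h1, if_true]

end

set_option maxHeartbeats 1000000 in
open Classical in
/-- **H** -/
theorem s2_core : S2_CORE := by
  intro J Ω St _ _ _ k c N M z Sp LS ty lam δ W hHl hcz hδ0 hδ1 hW hAvg T Tt S f st rk
    D0 D1 C CB B K y0 hTT hS1 hf0 hst hD0 hD1 hC hCB hB hK hrank htyp hcnt
  have hD10 : 0 ≤ D1 := by linarith
  have hB0 : 0 ≤ B := by linarith
  have h4k : (1 : ℝ) ≤ 4 ^ k := one_le_pow₀ (by norm_num)
  have h4B : (1 : ℝ) ≤ 4 ^ k * B := one_le_mul_of_one_le_of_one_le h4k hB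
  obtain ⟨G, hG⟩ : ∃ G : ℕ → (Unit → ℕ) → ℝ, ∀ X s, G X s =
      ∑ τ ∈ ThJ J (s ()), W X (omJ τ) * GT (lmT z lam) τ := ⟨_, fun _ _ => rfl⟩
  have hGn : ∀ X s, 0 ≤ G X s := by
    intro X s
    rw [hG]
    exact sum_nonneg fun τ _ => mul_nonneg (hW _ _) (GT_nn hHl _)
  obtain ⟨C2, hC2⟩ := Pool.Agent.L0h19.TT.ant Ω T (fun ω _ => f ω) S z c N M G
    (fun X ω => if Tt X ω then ((2 : ℝ) ^ rk ω) ^ k else 0)
    (fun ω => ((2 : ℝ) ^ rk ω) ^ k) (4 ^ k * B * c) (CB * D0 ^ k * C)
    (D1 ^ k * B * D1) δ K y0 (by positivity) hcz hTT hS1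
    (fun X ω hω => ⟨fun _ => hf0 X ω hω, fun p _ _ j l hjl => absurd (Subsingleton.elim j l) hjl⟩)
    hGn
    (fun X ω => by
      split_ifs
      · positivity
      · exact le_rfl)
    (fun X ω => by
      split_ifs
      · exact le_rfl
      · positivity)
    (by positivity)
    (one_le_mul_of_one_le_of_one_le (one_le_mul_of_one_le_of_one_le (one_le_pow₀ hD1) hB) hD1)
    hK hδ0 hδ1
    (fun lm hlm => by
      obtain ⟨A, hA⟩ := hAvg lm hlm
      refine ⟨A, fun X y hzy hyX => ?_⟩
      refine le_trans (le_of_eq ?_) (hA X y hzy hyX)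
      have e0 := sum_TupU (z := z) (y := y) (fun s => (∑ τ ∈ ThJ J s, W X (omJ τ) *
        GT (lmT z lam) τ) * gw 1 c s * (s : ℝ) ^ (lm / Real.log y))
      simp only [univ_unique, prod_singleton, hG]
      refine e0.trans ?_
      rw [← sum_fibJ]
      refine sum_congr rfl fun s hs => ?_
      rw [sum_mul, sum_mul]
      refine sum_congr rfl fun τ hτ => ?_
      have hτT := ThJ_Tup hs hτ
      have e1 := (mem_ThJ (dv_ne_zero hs)).1 hτ
      have e2 := gw_prodJ (c := c) hτT
      rw [e1] at e2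
      have e3 : (s : ℝ) = ∏ j, (τ j : ℝ) := by
        rw [← e1]
        push_cast
        rfl
      rw [← e2, ← e3, GT_lmT lam hτT]
      ring)
    (by
      intro X y Y k' hy hzy hyX hXk s hs v hv u hu hsvu T' hT' hT
      have hs' := mem_TupU.1 hs
      have hv' := mem_TupU.1 hv
      have hu' := mem_TupU.1 hu
      simp only [univ_unique, prod_singleton] at hsvu ⊢
      have hyX1 : y ≤ X := (Nat.le_self_pow (by omega) y).trans hyX
      have hX1 : 1 ≤ X := by omega
      have hTT' : ∀ ω ∈ T', s1 z y (f ω) = s () ∧ s2 z y (f ω) = v () ∧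
          ((u () : ℕ) : ℤ) ∣ f ω := by
        intro ω hω
        obtain ⟨h1, h2, h3⟩ := hT ω hω
        exact ⟨congrFun h1 (), congrFun h2 (), h3 ()⟩
      have hgs := Pool.Agent.L0h5.TF.gw_nonneg (c := c) (by omega) hs'
      have hgv := Pool.Agent.L0h5.TF.gw_nonneg (c := c) (by omega) hv'
      have hlog : 0 ≤ (Real.log y) ^ N := pow_nonneg (Real.log_natCast_nonneg y) _
      have hS0 : 0 ≤ S X := by
        have := hS1 X hX1
        linarith
      rcases T'.eq_empty_or_nonempty with hE | ⟨ω0, hω0⟩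
      · rw [hE, sum_empty]
        have := hGn X s
        positivity
      have hcop : (s ()).Coprime (v ()) := by
        obtain ⟨h1, h2, -⟩ := hTT' ω0 hω0
        apply Nat.coprime_of_dvd
        intro p hp hps hpv
        rw [← h1, dvd_s1 hp] at hps
        rw [← h2, dvd_s2 hp] at hpv
        exact hps.2.2 hpv.2
      have hsq := dv_squarefree hs'
      -- the common bound
      obtain ⟨Bd, hBd⟩ : ∃ Bd : ℝ, Bd = C * D1 ^ k' * S X * gw 1 c (s ()) *
          ((c : ℝ) ^ (v ()).primeFactors.card * (gw 1 c (v ()) / (v () : ℕ))) *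
          ((c : ℝ) ^ (u ()).primeFactors.card / (u () : ℕ)) / (Real.log y) ^ N := ⟨_, rfl⟩
      have hBd0 : 0 ≤ Bd := by rw [hBd]; positivity
      -- one factorisation
      have hmaps : ∀ ω ∈ T', tcf (s ()) (fun p => ty (st ω p)) ∈ ThJ J (s ()) := by
        intro ω _
        rw [mem_ThJ (dv_ne_zero hs')]
        exact prod_tcf hsq _
      rw [← sum_fiberwise_of_maps_to hmaps]
      have hone : ∀ τ ∈ ThJ J (s ()),
          ∑ ω ∈ T'.filter (fun ω => tcf (s ()) (fun p => ty (st ω p)) = τ),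
          (if Tt X ω then ((2 : ℝ) ^ rk ω) ^ k else 0) ≤
          (CB * B ^ (k' + (v ()).primeFactors.card) * W X (omJ τ)) *
            (D0 ^ k * (D1 ^ k) ^ k' * (4 ^ k) ^ (v ()).primeFactors.card) *
            (Bd * GT (lmT z lam) τ) := by
        intro τ hτ
        have hτT := ThJ_Tup hs' hτ
        have hτs := (mem_ThJ (dv_ne_zero hs')).1 hτ
        have hpt : ∀ ω ∈ T'.filter (fun ω => tcf (s ()) (fun p => ty (st ω p)) = τ),
            (if Tt X ω then ((2 : ℝ) ^ rk ω) ^ k else 0) ≤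
            (CB * B ^ (k' + (v ()).primeFactors.card) * W X (omJ τ)) *
            (D0 ^ k * (D1 ^ k) ^ k' * (4 ^ k) ^ (v ()).primeFactors.card) *
            (NL (s ()) (fun p => LS (st ω p) p) : ℝ) ^ k := by
          intro ω hω
          rw [mem_filter] at hω
          obtain ⟨h3, h4, -⟩ := hTT' ω hω.1
          have hWn := hW X (omJ τ)
          split_ifs with hty
          · have h8 := hrank X y k' hy hzy hyX1 hXk ω (hT' hω.1)
            rw [h3, h4] at h8
            have h9 : ((2 : ℝ) ^ rk ω) ^ k ≤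
                (D0 ^ k * (D1 ^ k) ^ k' * (4 ^ k) ^ (v ()).primeFactors.card) *
                (NL (s ()) (fun p => LS (st ω p) p) : ℝ) ^ k := by
              refine (pow_le_pow_left₀ (by positivity) h8 k).trans (le_of_eq ?_)
              rw [mul_pow, mul_pow, mul_pow]
              congr 1
              congr 1
              · congr 1
                rw [← pow_mul, ← pow_mul, mul_comm]
              · rw [← pow_mul, ← pow_mul, mul_comm]
            have h10 := htyp X y k' hy hzy hyX1 hXk ω (hT' hω.1) hty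
            rw [h3, h4, ← omJ_tcf, hω.2] at h10
            calc ((2 : ℝ) ^ rk ω) ^ k ≤ 1 * ((D0 ^ k * (D1 ^ k) ^ k' *
                (4 ^ k) ^ (v ()).primeFactors.card) *
                (NL (s ()) (fun p => LS (st ω p) p) : ℝ) ^ k) := by rw [one_mul]; exact h9
              _ ≤ (CB * B ^ (k' + (v ()).primeFactors.card) * W X (omJ τ)) *
                ((D0 ^ k * (D1 ^ k) ^ k' * (4 ^ k) ^ (v ()).primeFactors.card) *
                (NL (s ()) (fun p => LS (st ω p) p) : ℝ) ^ k) :=
                  mul_le_mul_of_nonneg_right h10 (by positivity)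
              _ = _ := by ring
          · positivity
        refine (sum_le_sum hpt).trans ?_
        rw [← mul_sum]
        have hWn := hW X (omJ τ)
        refine mul_le_mul_of_nonneg_left ?_ (by positivity)
        -- the sum of the local counts
        have h1 := sum_states (fun p => (Sp p).filter fun σ => p ∣ τ (ty σ)) LS (lamT lam τ) (s ())
          (fun p hp v' h' => by
            have hp1 := Nat.prime_of_mem_primeFactors hp
            have hp2 := (dv_prime hs' hp1 (Nat.dvd_of_mem_primeFactors hp)).1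
            unfold lamT
            rw [sum_filter, ← sum_fiberwise (Sp p) ty]
            refine sum_congr rfl fun j _ => ?_
            by_cases hj : p ∣ τ j
            · rw [if_pos hj, hHl.lam_eq p hp1 hp2]
              refine sum_congr (by ext σ; simp only [mem_filter]) fun σ hσ => ?_
              rw [if_pos]
              rw [(mem_filter.1 hσ).2]
              exact hj
            · rw [if_neg hj]
              symm
              refine sum_eq_zero fun σ hσ => ?_
              rw [if_neg]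
              rw [(mem_filter.1 hσ).2]
              exact hj)
          st (T'.filter (fun ω => tcf (s ()) (fun p => ty (st ω p)) = τ)) (fun ω hω p hp => by
            rw [mem_filter] at hω
            have hp1 := Nat.prime_of_mem_primeFactors hp
            have hp2 := Nat.dvd_of_mem_primeFactors hp
            rw [← (hTT' ω hω.1).1] at hp2
            obtain ⟨h3, h4, h5⟩ := (dvd_s1 hp1).1 hp2
            refine mem_filter.2 ⟨hst X ω (hT' hω.1) p hp1 (mem_PS.1 h3).1.1 h4 h5, ?_⟩
            rw [← hω.2]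
            exact (dvd_tcf (fun p => ty (st ω p)) hp _).2 rfl) Bd
          (fun T'' hT'' hcc => by
            refine (hcnt X y Y k' hy hzy hyX hXk (s ()) (v ()) (u ()) hs' hv' hu' hsvu hcop T''
              ((hT''.trans (filter_subset _ _)).trans hT')
              (fun ω hω => hTT' ω (mem_filter.1 (hT'' hω)).1) hcc).trans (le_of_eq ?_)
            rw [hBd]
            ring)
        refine h1.trans (mul_le_mul_of_nonneg_left (le_of_eq ?_) hBd0)
        rw [GT_lmT lam hτT]
        unfold GT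
        rw [hτs]
      refine (sum_le_sum hone).trans ?_
      have hsum : ∑ τ ∈ ThJ J (s ()), (CB * B ^ (k' + (v ()).primeFactors.card) * W X (omJ τ)) *
            (D0 ^ k * (D1 ^ k) ^ k' * (4 ^ k) ^ (v ()).primeFactors.card) *
            (Bd * GT (lmT z lam) τ) =
          CB * D0 ^ k * C * (D1 ^ k * B * D1) ^ k' * S X * (G X s * gw 1 c (s ())) *
            ((4 ^ k * B * c) ^ (v ()).primeFactors.card * (gw 1 c (v ()) / v ())) *
            ((c : ℝ) ^ (u ()).primeFactors.card / u ()) / (Real.log y) ^ N := by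
        rw [hG, sum_mul, mul_sum, sum_mul, sum_mul, sum_div]
        refine sum_congr rfl fun τ _ => ?_
        rw [hBd, mul_pow (4 ^ k * B) (c : ℝ), mul_pow ((4 : ℝ) ^ k) B, mul_pow (D1 ^ k * B) D1,
          mul_pow (D1 ^ k) B, pow_add]
        ring
      rw [hsum]
      have hcu : (c : ℝ) ^ (u ()).primeFactors.card / (u () : ℝ) ≤
          (4 ^ k * B * c) ^ (u ()).primeFactors.card / (u () : ℝ) := by
        apply div_le_div_of_nonneg_right _ (Nat.cast_nonneg _)
        exact pow_le_pow_left₀ (Nat.cast_nonneg _)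
          (le_mul_of_one_le_left (Nat.cast_nonneg _) h4B) _
      have hGX := hGn X s
      exact div_le_div_of_nonneg_right (mul_le_mul_of_nonneg_left hcu (by positivity)) hlog)
  refine ⟨C2, fun X hX => ?_⟩
  have h := hC2 X hX
  rw [← sum_filter] at h
  exact h

end Pool.Agent.L0h71.TU
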