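import Pool.Agent.L0h5.TU.Stm
import Pool.Agent.L0h5.NT.RSg

/-!
# Project TU, module G: the Rankin trick in the window (helper71, after helper41)
-/

set_option autoImplicit false

namespace Pool.Agent.L0h71.TU

open Finset Pool.Agent.W262.RK Pool.Agent.L0h5.TF Pool.Agent.L0h5.TU Pool.Agent.L0h94.FT
open Pool.Agent.L0h5.NT Pool.Agent.W405.RK2
open Pool.Agent.L0h5.TT (LL)

section

variable {J : Type} [Fintype J]

/-- the distance to the window -/
noncomputable def dst (a b : ℝ) (n : J → ℕ) : ℝ := ∑ c, max 0 (max (a - n c) (n c - b))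

lemma dst_nonneg (a b : ℝ) (n : J → ℕ) : 0 ≤ dst a b n := sum_nonneg fun _ _ => le_max_left _ _

lemma dst_lip (a b : ℝ) (n m : J → ℕ) :
    dst a b n ≤ dst a b (fun c => n c + m c) + ∑ c, (m c : ℝ) := by
  unfold dst
  rw [← sum_add_distrib]
  apply sum_le_sum
  intro c _
  have hm : (0 : ℝ) ≤ m c := Nat.cast_nonneg _
  have h0 : (0 : ℝ) ≤ max 0 (max (a - ((n c + m c : ℕ) : ℝ)) (((n c + m c : ℕ) : ℝ) - b)) := le_max_left _ _
  have h1 : a - ((n c + m c : ℕ) : ℝ) ≤ max 0 (max (a - ((n c + m c : ℕ) : ℝ)) (((n c + m c : ℕ) : ℝ) - b)) :=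
    (le_max_left _ _).trans (le_max_right _ _)
  have h2 : ((n c + m c : ℕ) : ℝ) - b ≤ max 0 (max (a - ((n c + m c : ℕ) : ℝ)) (((n c + m c : ℕ) : ℝ) - b)) :=
    (le_max_right _ _).trans (le_max_right _ _)
  push_cast at h0 h1 h2 ⊢
  apply max_le (by linarith)
  apply max_le <;> linarith

lemma dst_zero (a b : ℝ) (n : J → ℕ) (h : ∀ c, a ≤ n c ∧ (n c : ℝ) ≤ b) : dst a b n = 0 := by
  unfold dst
  apply sum_eq_zero
  intro c _
  apply max_eq_left
  apply max_le <;> linarith [(h c).1, (h c).2]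

lemma dst_low (a b t : ℝ) (n : J → ℕ) (c : J) (h : t ≤ a - n c ∨ t ≤ n c - b) : t ≤ dst a b n := by
  unfold dst
  refine le_trans ?_ (single_le_sum (f := fun c => max 0 (max (a - (n c : ℝ)) (n c - b)))
    (fun i _ => le_max_left _ _) (mem_univ c))
  rcases h with h | h
  · exact h.trans ((le_max_left _ _).trans (le_max_right _ _))
  · exact h.trans ((le_max_right _ _).trans (le_max_right _ _))

variable [DecidableEq J]

lemma omJ_mul {z y : ℕ} {s e : J → ℕ} (h : (fun j => s j * e j) ∈ Tup J z y) :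
    omJ (fun j => s j * e j) = fun c => omJ s c + omJ e c := by
  funext c
  unfold omJ
  have h1 := (Pool.Agent.W405.RK2.mem_Tup.1 h).1 c
  have hsq : Squarefree (s c * e c) := (Pool.Agent.W405.RK2.PP_squarefree z y).squarefree_of_dvd h1
  have hc : (s c).Coprime (e c) := Nat.coprime_of_squarefree_mul hsq
  show (s c * e c).primeFactors.card = _
  rw [hc.primeFactors_mul, card_union_of_disjoint hc.disjoint_primeFactors]

lemma sq_Tup {z y : ℕ} {s : J → ℕ} (hs : s ∈ Tup J z y) : Squarefree (∏ j, s j) :=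
  (Pool.Agent.W405.RK2.PP_squarefree z y).squarefree_of_dvd (Tup_prod_dvd hs)

lemma pr_Tup {z y : ℕ} {s : J → ℕ} (hs : s ∈ Tup J z y) (p : ℕ) (hp : p.Prime)
    (hd : p ∣ ∏ j, s j) : z < p := by
  have h1 : p ∣ PP z y := hd.trans (Tup_prod_dvd hs)
  unfold PP at h1
  obtain ⟨q, hq, hpq⟩ := (hp.prime.dvd_finsetProd_iff _).1 h1
  have h2 := mem_PS.1 hq
  rw [(Nat.prime_dvd_prime_iff_eq hp h2.2).1 hpq]
  exact h2.1.1

end

set_option maxHeartbeats 4000000 in
open Classical in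
/-- **G** -/
theorem s2_rnk (hGro : S2_GRO) (hTrv : S2_TRV) : S2_RNK := by
  intro J St _ _ k c z N δ0 Sp LS ty lam hHl hz8 hz2 hδ0 hδ0' hAvg lm hlm
  obtain ⟨M, hM⟩ := hTrv J St k c z Sp LS ty lam hHl hz8 hz2
  obtain ⟨δ1, hδ1⟩ : ∃ δ1 : ℝ, δ1 = δ0 / 3 := ⟨_, rfl⟩
  rw [← hδ1]
  have hδ10 : 0 < δ1 := by rw [hδ1]; positivity
  have hδ16 : δ1 ≤ 1 / 6 := by rw [hδ1]; linarith
  obtain ⟨C1, hC1, hA1⟩ := hAvg
  obtain ⟨C2, hC2, hT2⟩ := hM 0 le_rfl
  obtain ⟨b0, hb0⟩ : ∃ b0 : ℝ, b0 = 2 * M / δ1 := ⟨_, rfl⟩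
  have hb00 : 0 ≤ b0 := by rw [hb0]; positivity
  obtain ⟨b, hb⟩ : ∃ b : ℝ, b = ((4 : ℝ) ^ k * c) * Real.exp b0 := ⟨_, rfl⟩
  have hbn : 0 ≤ b := by rw [hb]; positivity
  obtain ⟨E, hE0, hE⟩ := bracket_g J z c b lm hbn (by omega) hlm
  -- nonnegativity on the tuples
  have hGn : ∀ (y : ℕ) (s : J → ℕ), s ∈ Tup J z y → 0 ≤ GT lam s := by
    intro y s hs
    have h1 := hGro J St k c z Sp LS ty lam hHl s (fun _ => 1)
      (by simpa using sq_Tup hs) (by simpa using pr_Tup hs)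
    exact h1.1
  refine ⟨E * (C1 + C2), by positivity, ?_⟩
  intro X y hzy hyX hXy
  have hyr : (8 : ℝ) < y := by exact_mod_cast (by omega : 8 < y)
  have hl1 : 1 < Real.log y := by
    rw [Real.lt_log_iff_exp_lt (by linarith)]
    have := Real.exp_one_lt_d9
    linarith
  have hX0 : (0 : ℝ) < X := by
    have : (y : ℝ) ≤ X := by exact_mod_cast hyX
    linarith
  have hlyX : Real.log y ≤ Real.log X := Real.log_le_log (by linarith) (by exact_mod_cast hyX)
  have hlX1 : 1 < Real.log X := by linarith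
  obtain ⟨Λ, hΛ⟩ : ∃ Λ, Λ = LL X := ⟨_, rfl⟩
  obtain ⟨l, hl⟩ : ∃ l, l = LL y := ⟨_, rfl⟩
  have hΛ0 : 0 < Λ := by rw [hΛ]; exact Real.log_pos hlX1
  have hl0 : 0 < l := by rw [hl]; exact Real.log_pos hl1
  have hlΛ : l ≤ Λ := by
    rw [hl, hΛ]
    exact Real.log_le_log (by linarith) hlyX
  have hΛl : (1 - δ1) * Λ ≤ l := by
    have h1 := Real.log_le_log (Real.rpow_pos_of_pos (by linarith) _) hXy
    rw [Real.log_rpow (by linarith)] at h1
    rw [hΛ, hl]
    exact h1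
  have hδ : 0 ≤ lm / Real.log y := div_nonneg hlm (by linarith)
  -- the weight
  obtain ⟨w, hw⟩ : ∃ w : (J → ℕ) → ℝ,
      w = fun s => Real.exp (-(b0 * dst ((1 - δ1) * Λ) ((1 + δ1) * Λ) (omJ s))) := ⟨_, rfl⟩
  have hw0 : ∀ s, 0 ≤ w s := fun s => by rw [hw]; exact (Real.exp_pos _).le
  have hw1 : ∀ s, w s ≤ 1 := by
    intro s
    rw [hw]
    apply Real.exp_le_one_iff.2
    have := mul_nonneg hb00 (dst_nonneg ((1 - δ1) * Λ) ((1 + δ1) * Λ) (omJ s))
    linarith
  have hwW : ∀ s, WinJ δ1 Λ (omJ s) → w s = 1 := by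
    intro s hs
    rw [hw]
    show Real.exp _ = 1
    rw [dst_zero _ _ _ hs, mul_zero, neg_zero, Real.exp_zero]
  have hwN : ∀ s, ¬ WinJ δ0 l (omJ s) → w s * (Real.log y) ^ M ≤ 1 := by
    intro s hs
    have hd : δ1 / 2 * Λ ≤ dst ((1 - δ1) * Λ) ((1 + δ1) * Λ) (omJ s) := by
      unfold WinJ at hs
      push Not at hs
      obtain ⟨c, hc⟩ := hs
      apply dst_low _ _ _ _ c
      by_cases h1 : (1 - δ0) * l ≤ omJ s c
      · right
        have h2 := hc h1
        have e0 : δ0 = 3 * δ1 := by rw [hδ1]; ring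
        rw [e0] at h2
        have h3 : (1 + 3 * δ1) * ((1 - δ1) * Λ) ≤ (1 + 3 * δ1) * l :=
          mul_le_mul_of_nonneg_left hΛl (by positivity)
        have h4 : 0 ≤ δ1 * Λ * (1 / 2 - 3 * δ1) := mul_nonneg (by positivity) (by linarith)
        nlinarith
      · left
        push Not at h1
        have e0 : δ0 = 3 * δ1 := by rw [hδ1]; ring
        rw [e0] at h1
        have h3 : (1 - 3 * δ1) * l ≤ (1 - 3 * δ1) * Λ := mul_le_mul_of_nonneg_left hlΛ (by linarith)
        have h4 : 0 < δ1 * Λ := by positivity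
        nlinarith
    have h5 : (Real.log y) ^ M ≤ Real.exp (M * Λ) := by
      have h6 : Real.exp (M * Λ) = (Real.log X) ^ M := by
        rw [← Real.rpow_natCast, Real.rpow_def_of_pos (by linarith), hΛ]
        congr 1
        unfold Pool.Agent.L0h5.TT.LL
        ring
      rw [h6]
      exact pow_le_pow_left₀ (by linarith) hlyX M
    have h7 : w s ≤ Real.exp (-(M * Λ)) := by
      rw [hw]
      apply Real.exp_le_exp.2
      have h8 : (M : ℝ) * Λ = b0 * (δ1 / 2 * Λ) := by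
        rw [hb0]
        field_simp
      rw [h8]
      exact neg_le_neg (mul_le_mul_of_nonneg_left hd hb00)
    calc w s * (Real.log y) ^ M ≤ Real.exp (-(M * Λ)) * Real.exp (M * Λ) :=
          mul_le_mul h7 h5 (by positivity) (Real.exp_pos _).le
      _ = 1 := by rw [← Real.exp_add, neg_add_cancel, Real.exp_zero]
  -- the function H
  obtain ⟨H, hH⟩ : ∃ H : (J → ℕ) → ℝ, H = fun s => max 0 (GT lam s) * w s := ⟨_, rfl⟩
  have hHn : ∀ s, 0 ≤ H s := fun s => by
    rw [hH]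
    exact mul_nonneg (le_max_left _ _) (hw0 s)
  have hHT : ∀ s ∈ Tup J z y, H s = GT lam s * w s := fun s hs => by
    rw [hH]
    show max 0 (GT lam s) * w s = _
    rw [max_eq_right (hGn y s hs)]
  have hHg : ∀ s e : J → ℕ, (fun j => s j * e j) ∈ Tup J z y →
      H (fun j => s j * e j) ≤ b ^ (∑ j, (e j).primeFactors.card) * H s := by
    intro s e h
    rw [hHT _ h, hH]
    show GT lam (fun j => s j * e j) * w (fun j => s j * e j) ≤
      b ^ (∑ j, (e j).primeFactors.card) * (max 0 (GT lam s) * w s)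
    have h1 := (hGro J St k c z Sp LS ty lam hHl s e (sq_Tup h) (pr_Tup h)).2
    have h2 : w (fun j => s j * e j) ≤ Real.exp b0 ^ (∑ j, (e j).primeFactors.card) * w s := by
      rw [hw]
      show Real.exp (-(b0 * dst ((1 - δ1) * Λ) ((1 + δ1) * Λ) (omJ (fun j => s j * e j)))) ≤
        Real.exp b0 ^ (∑ j, (e j).primeFactors.card) *
          Real.exp (-(b0 * dst ((1 - δ1) * Λ) ((1 + δ1) * Λ) (omJ s)))
      rw [← Real.exp_nat_mul, ← Real.exp_add]
      apply Real.exp_le_exp.2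
      have h3 := dst_lip ((1 - δ1) * Λ) ((1 + δ1) * Λ) (omJ s) (omJ e)
      rw [← omJ_mul h] at h3
      have h4 : ((∑ j, (e j).primeFactors.card : ℕ) : ℝ) = ∑ c, (omJ e c : ℝ) := by
        unfold omJ
        push_cast
        rfl
      rw [h4]
      have h5 := mul_le_mul_of_nonneg_left h3 hb00
      nlinarith
    have h3 : ((4 : ℝ) ^ k * c) ^ (∑ j, (e j).primeFactors.card) * GT lam s ≤
        ((4 : ℝ) ^ k * c) ^ (∑ j, (e j).primeFactors.card) * max 0 (GT lam s) :=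
      mul_le_mul_of_nonneg_left (le_max_right _ _) (by positivity)
    calc GT lam (fun j => s j * e j) * w (fun j => s j * e j) ≤
        (((4 : ℝ) ^ k * c) ^ (∑ j, (e j).primeFactors.card) * max 0 (GT lam s)) *
          (Real.exp b0 ^ (∑ j, (e j).primeFactors.card) * w s) :=
          mul_le_mul (h1.trans h3) h2 (hw0 _) (mul_nonneg (by positivity) (le_max_left _ _))
      _ = _ := by
          rw [hb, mul_pow ((4 : ℝ) ^ k * c)]
          ring
  have hmain := main_ineq_g J z y H (lm / Real.log y) b hbn c (by omega) hδ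
    hHn hHg
  have hgw : ∀ s ∈ Tup J z y, 0 ≤ ∏ j, gw 1 c (s j) := fun s hs =>
    prod_nonneg fun j _ => gw1_nonneg (by omega) ((Pool.Agent.W405.RK2.mem_Tup.1 hs).1 j)
  -- the window
  have hL : ∑ s ∈ (Tup J z y).filter (fun s => WinJ δ1 (LL X) (omJ s)),
      GT lam s * (∏ j, gw 1 c (s j)) * (∏ j, (s j : ℝ)) ^ (lm / Real.log y) ≤
      ∑ s ∈ Tup J z y, H s * (∏ j, gw 1 c (s j)) * (∏ j, (s j : ℝ)) ^ (lm / Real.log y) := by
    have h1 : ∑ s ∈ (Tup J z y).filter (fun s => WinJ δ1 (LL X) (omJ s)),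
      GT lam s * (∏ j, gw 1 c (s j)) * (∏ j, (s j : ℝ)) ^ (lm / Real.log y) =
      ∑ s ∈ (Tup J z y).filter (fun s => WinJ δ1 (LL X) (omJ s)),
      H s * (∏ j, gw 1 c (s j)) * (∏ j, (s j : ℝ)) ^ (lm / Real.log y) := by
      apply sum_congr rfl
      intro s hs
      rw [mem_filter, ← hΛ] at hs
      rw [hHT s hs.1, hwW s hs.2, mul_one]
    rw [h1]
    apply sum_le_sum_of_subset_of_nonneg (filter_subset _ _)
    intro s hs _
    exact mul_nonneg (mul_nonneg (hHn s) (hgw s hs)) (Real.rpow_nonneg (prod_nonneg fun _ _ => Nat.cast_nonneg _) _)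
  refine hL.trans (hmain.trans ?_)
  have hS : ∑ s ∈ Tup J z y, H s * ∏ j, gw 1 c (s j) ≤ (C1 + C2) * (Real.log y) ^ N := by
    rw [← sum_filter_add_sum_filter_not (Tup J z y) (fun s => WinJ δ0 (LL y) (omJ s))]
    have h1 : ∑ s ∈ (Tup J z y).filter (fun s => WinJ δ0 (LL y) (omJ s)),
        H s * ∏ j, gw 1 c (s j) ≤ C1 * (Real.log y) ^ N := by
      refine le_trans ?_ (hA1 y hzy)
      apply sum_le_sum
      intro s hs
      apply mul_le_mul_of_nonneg_right _ (hgw s (mem_filter.1 hs).1)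
      rw [hHT s (mem_filter.1 hs).1]
      exact mul_le_of_le_one_right (hGn y s (mem_filter.1 hs).1) (hw1 s)
    have h2 : ∑ s ∈ (Tup J z y).filter (fun s => ¬ WinJ δ0 (LL y) (omJ s)),
        H s * ∏ j, gw 1 c (s j) ≤ C2 := by
      have hlM : 0 < (Real.log y) ^ M := by positivity
      have h3 : (∑ s ∈ (Tup J z y).filter (fun s => ¬ WinJ δ0 (LL y) (omJ s)),
        H s * ∏ j, gw 1 c (s j)) * (Real.log y) ^ M ≤ C2 * (Real.log y) ^ M := by
        have h4 := hT2 y hzy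
        simp only [zero_div, Real.rpow_zero, mul_one] at h4
        refine le_trans ?_ h4
        rw [sum_mul]
        have h5 : ∑ s ∈ (Tup J z y).filter (fun s => ¬ WinJ δ0 (LL y) (omJ s)),
            H s * (∏ j, gw 1 c (s j)) * (Real.log y) ^ M ≤
            ∑ s ∈ (Tup J z y).filter (fun s => ¬ WinJ δ0 (LL y) (omJ s)),
            GT lam s * (∏ j, gw 1 c (s j)) := by
          apply sum_le_sum
          intro s hs
          rw [mem_filter, ← hl] at hs
          have h6 := hwN s hs.2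
          have h7 : 0 ≤ GT lam s * (∏ j, gw 1 c (s j)) := mul_nonneg (hGn y s hs.1) (hgw s hs.1)
          rw [hHT s hs.1]
          calc GT lam s * w s * (∏ j, gw 1 c (s j)) * (Real.log y) ^ M =
              (GT lam s * (∏ j, gw 1 c (s j))) * (w s * (Real.log y) ^ M) := by ring
            _ ≤ (GT lam s * (∏ j, gw 1 c (s j))) * 1 := mul_le_mul_of_nonneg_left h6 h7
            _ = _ := mul_one _
        refine h5.trans ?_
        apply sum_le_sum_of_subset_of_nonneg (filter_subset _ _)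
        intro s hs _
        exact mul_nonneg (hGn y s hs) (hgw s hs)
      exact le_of_mul_le_mul_right h3 hlM
    have h3 : C2 ≤ C2 * (Real.log y) ^ N := le_mul_of_one_le_right hC2 (one_le_pow₀ hl1.le)
    rw [add_mul]
    linarith
  have hn : 0 ≤ ∑ s ∈ Tup J z y, H s * ∏ j, gw 1 c (s j) :=
    sum_nonneg fun s hs => mul_nonneg (hHn s) (hgw s hs)
  calc _ ≤ E * ∑ s ∈ Tup J z y, H s * ∏ j, gw 1 c (s j) :=
        mul_le_mul_of_nonneg_right (hE y hzy) hn
    _ ≤ E * ((C1 + C2) * (Real.log y) ^ N) := mul_le_mul_of_nonneg_left hS hE0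
    _ = _ := by ring

end Pool.Agent.L0h71.TU
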